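import Pool.Agent.H10.PcB

namespace Pool.Agent.Results.MP_331a15_co.Cliques

open Pool.Agent.H10.Pc

theorem result (r : ℕ) (hr : 4 ≤ r) :
    deltaCyc (⊤ : SimpleGraph (Fin r)) = (2 * r - 4 : ℝ) / (3 * r - 5) ∧
    ∀ (W : Type) [Fintype W] (H : SimpleGraph W),
      (Fintype.card W ≤ r → deltaCyc H ≤ (2 * r - 4 : ℝ) / (3 * r - 5)) ∧
      (¬ H.Colorable (r - 1) → (2 * r - 4 : ℝ) / (3 * r - 5) ≤ deltaCyc H) := by
  obtain ⟨k, rfl⟩ : ∃ k, r = k + 4 := ⟨r - 4, by omega⟩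
  have e : (2 * (k + 4 : ℕ) - 4 : ℝ) / (3 * (k + 4 : ℕ) - 5) = (2 * k + 4 : ℝ) / (3 * k + 7) := by
    push_cast
    congr 1 <;> ring
  rw [e]
  refine ⟨le_antisymm (upper _ k (by simp)) (lower _ k fun ⟨C⟩ => ?_),
    fun W _ H => ⟨upper H k, lower H k⟩⟩
  have := Fintype.card_le_of_injective C fun a b h => by
    by_contra hc
    exact C.valid hc h
  simp at this

end Pool.Agent.Results.MP_331a15_co.Cliques
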