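import Pool.Agent.H10.PcC

namespace Pool.Agent.Results.MP_331a15_co.Triangle

open Pool.Agent.H10.Pc

theorem result : deltaCyc (⊤ : SimpleGraph (Fin 3)) = 1 / 3 := k3

end Pool.Agent.Results.MP_331a15_co.Triangle
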